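import Pool.Agent.H78.S.Targets

/-!
# Row ITV (board sgt_modules): the group generated by generic commutators
-/

set_option autoImplicit false

open Set Pool.Agent.H77.BC Pool.Agent.H78.S
open scoped Pointwise

namespace Pool.Agent.H24.S

variable {M : Type} {U : RU M}

theorem big_mono {α : Type} [Cod M α] {A X Y : Set α} (h : Big U A X) (hXY : X ∩ A ⊆ Y) :
    Big U A Y := by
  obtain ⟨Z, h1, h2, h3, h4, h5⟩ := h
  exact ⟨Z, h1, h2, h3, fun z hz => hXY ⟨h4 hz, h3 hz⟩, h5⟩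

theorem big_univ {α : Type} [Cod M α] {A X : Set α} (h1 : U.D A) (h2 : A.Nonempty) (h : A ⊆ X) :
    Big U A X :=
  ⟨A, h1, h2, subset_rfl, h, le_rfl⟩

theorem big_inter_self {α : Type} [Cod M α] {A X : Set α} (h : Big U A X) :
    Big U A (X ∩ A) :=
  big_mono h subset_rfl

section

variable {Γ : Type} [Group Γ] [Cod M Γ] [DG U Γ]

/-- the commutator -/
def Cm (a b : Γ) : Γ := a⁻¹ * b⁻¹ * a * b

theorem DFn_Cm {α : Type} [Cod M α] [Ful U α] {f g : α → Γ} (hf : DFn U f) (hg : DFn U g) :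
    DFn U (fun p => Cm (f p) (g p)) :=
  DFn_gmul (DFn_gmul (DFn_gmul (DFn_ginv hf) (DFn_ginv hg)) hf) hg

theorem D_Cm {α : Type} [Cod M α] [Ful U α] {f g : α → Γ} (hf : DFn U f) (hg : DFn U g)
    {V : Subgroup Γ} (hV : U.D (V : Set Γ)) : U.D {p | Cm (f p) (g p) ∈ V} :=
  DFn_preim (DFn_Cm hf hg) hV

theorem big_swap {A B : Set Γ} (hA : U.D A) (hB : U.D B) {Z : Set (Γ × Γ)}
    (h : Big U (A ×ˢ B) Z) : Big U (B ×ˢ A) {p : Γ × Γ | (p.2, p.1) ∈ Z} := by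
  obtain ⟨Y, h1, ⟨⟨y1, y2⟩, hy⟩, h3, h4, h5⟩ := h
  have hne : (A ×ˢ B).Nonempty := ⟨_, h3 hy⟩
  have hA0 : A.Nonempty := ⟨y1, (h3 hy).1⟩
  have hB0 : B.Nonempty := ⟨y2, (h3 hy).2⟩
  refine ⟨{p : Γ × Γ | (p.2, p.1) ∈ Y}, D_swap h1, ⟨(y2, y1), hy⟩, ?_, ?_, ?_⟩
  · rintro ⟨p1, p2⟩ hp
    exact ⟨(h3 hp).2, (h3 hp).1⟩
  · rintro ⟨p1, p2⟩ hp
    exact h4 hp
  · have e1 : U.R (B ×ˢ A) = U.R (A ×ˢ B) := by
      rw [(l_RKB U).prod hA hB hA0 hB0, (l_RKB U).prod hB hA hB0 hA0, add_comm]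
    have e2 : U.R ((fun p : Γ × Γ => (p.2, p.1)) '' Y) = U.R Y :=
      (l_RKB U).inj h1 DFn_swap ⟨_, hy⟩ (by
        rintro ⟨a, b⟩ _ ⟨c, d⟩ _ h
        simp only [Prod.mk.injEq] at h
        rw [h.1, h.2])
    have e3 : ((fun p : Γ × Γ => (p.2, p.1)) '' Y) = {p : Γ × Γ | (p.2, p.1) ∈ Y} := by
      ext ⟨a, b⟩
      constructor
      · rintro ⟨⟨c, d⟩, hc, h⟩
        simp only [Prod.mk.injEq] at h
        rw [mem_setOf_eq, ← h.1, ← h.2]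
        exact hc
      · intro h
        exact ⟨(b, a), h, rfl⟩
    rw [e3] at e2
    rw [e1, e2]
    exact h5

/-- the first half of the argument: `A` normalises `V` -/
theorem norm_aux (hBGA : T_BGA) (hIRG : T_IRG) (hIRP : T_IRP) (A B V : Subgroup Γ)
    (hA : Conn U A) (hB : Conn U B) (hV : U.D (V : Set Γ))
    (hgood : Big U ((A : Set Γ) ×ˢ (B : Set Γ)) {p : Γ × Γ | Cm p.1 p.2 ∈ V})
    (hmin : ∀ L : Subgroup Γ, U.D (L : Set Γ) →
      Big U ((A : Set Γ) ×ˢ (B : Set Γ)) {p : Γ × Γ | Cm p.1 p.2 ∈ L} → V ≤ L) :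
    (∀ a ∈ A, ∀ v ∈ V, a⁻¹ * v * a ∈ V) ∧
      Big U (A : Set Γ) {a | Big U (B : Set Γ) {b | Cm a b ∈ V}} := by
  have hful : Ful U Γ := inferInstance
  have iA := hIRG U A hA
  have iB := hIRG U B hB
  have iAB := hIRP U (A : Set Γ) (B : Set Γ) iA.1 iB.1
  have hZ : U.D {p : Γ × Γ | Cm p.1 p.2 ∈ V} := D_Cm DFn_fst DFn_snd hV
  have hN : Big U (A : Set Γ) {a | Big U (B : Set Γ) {b | Cm a b ∈ V}} :=
    (iAB.2 _ hZ).1 hgood
  refine ⟨?_, hN⟩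
  -- elements of the big set
  have key : ∀ a' ∈ A, Big U (B : Set Γ) {b | Cm a' b ∈ V} → ∀ v ∈ V, a'⁻¹ * v * a' ∈ V := by
    intro a' ha' hb' v hv
    have hW2 : Big U ((A : Set Γ) ×ˢ (B : Set Γ)) {p : Γ × Γ | Cm (p.1 * a') p.2 ∈ V} := by
      refine (iAB.2 _ (D_Cm (DFn_gmul DFn_fst (DFn_const a')) DFn_snd hV)).2 ?_
      exact (iA.2 _ hN).2.1 a' ha'
    have hW3 : Big U ((A : Set Γ) ×ˢ (B : Set Γ)) {p : Γ × Γ | Cm a' p.2 ∈ V} := by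
      refine (iAB.2 _ (D_Cm (DFn_const a') DFn_snd hV)).2 ?_
      exact big_univ hA.1 ⟨1, A.one_mem⟩ (fun a _ => hb')
    have hW := (hBGA U _ iAB.1).1 _ _ hW2 hW3
    have hle : V ≤ V.comap (MulAut.conj a'⁻¹).toMonoidHom := by
      refine hmin _ ?_ ?_
      · have : U.D {g : Γ | a'⁻¹ * g * a' ∈ V} :=
          DFn_preim (DFn_gmul (DFn_gmul (DFn_const a'⁻¹) DFn_id) (DFn_const a')) hV
        refine (congrArg U.D ?_).mp this
        ext g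
        simp [Subgroup.mem_comap, MulAut.conj_apply]
      · refine big_mono hW ?_
        rintro ⟨a, b⟩ ⟨⟨h1, h2⟩, -⟩
        simp only [mem_setOf_eq] at h1 h2 ⊢
        have e : a'⁻¹ * Cm a b * a' = Cm (a * a') b * (Cm a' b)⁻¹ := by
          unfold Cm
          group
        rw [Subgroup.mem_comap]
        have e' : (MulAut.conj a'⁻¹).toMonoidHom (Cm a b) = a'⁻¹ * Cm a b * a' := by
          simp [MulAut.conj_apply]
        rw [e', e]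
        exact V.mul_mem h1 (V.inv_mem h2)
    have h := hle hv
    rw [Subgroup.mem_comap] at h
    have e' : (MulAut.conj a'⁻¹).toMonoidHom v = a'⁻¹ * v * a' := by
      simp [MulAut.conj_apply]
    rwa [e'] at h
  have hN' := big_inter_self hN
  intro a ha v hv
  obtain ⟨x, hx, y, hy, rfl⟩ := (iA.2 _ hN').2.2.2 _ hN' a ha
  have h1 := key y hy.2 hy.1 _ (key x hx.2 hx.1 v hv)
  have e : (x * y)⁻¹ * v * (x * y) = y⁻¹ * (x⁻¹ * v * x) * y := by group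
  rw [e]
  exact h1

/-- the second half of the argument: commutators in products -/
theorem comm_aux (hBGA : T_BGA) (hIRG : T_IRG) (A B V : Subgroup Γ)
    (hA : Conn U A) (hB : Conn U B)
    (hnA : ∀ a ∈ A, ∀ v ∈ V, a⁻¹ * v * a ∈ V) (hnB : ∀ a ∈ B, ∀ v ∈ V, a⁻¹ * v * a ∈ V)
    (hN : Big U (A : Set Γ) {a | Big U (B : Set Γ) {b | Cm a b ∈ V}}) :
    ∀ a ∈ A, ∀ b ∈ B, Cm a b ∈ V := by
  have iA := hIRG U A hA
  have iB := hIRG U B hB
  have key : ∀ a ∈ A, Big U (B : Set Γ) {b | Cm a b ∈ V} → ∀ b ∈ B, Cm a b ∈ V := by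
    intro a ha h b hb
    have h' := big_inter_self h
    obtain ⟨x, hx, y, hy, rfl⟩ := (iB.2 _ h').2.2.2 _ h' b hb
    have e : Cm a (x * y) = Cm a y * (y⁻¹ * Cm a x * y) := by
      unfold Cm
      group
    rw [e]
    exact V.mul_mem hy.1 (hnB y hy.2 _ hx.1)
  intro a ha b hb
  have hN' := big_inter_self hN
  obtain ⟨x, hx, y, hy, rfl⟩ := (iA.2 _ hN').2.2.2 _ hN' a ha
  have e : Cm (x * y) b = (y⁻¹ * Cm x b * y) * Cm y b := by
    unfold Cm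
    group
  rw [e]
  exact V.mul_mem (hnA y hy.2 _ (key x hx.2 hx.1 b hb)) (key y hy.2 hy.1 b hb)

/-- pure group theory: commutators of a group which is a product of products -/
theorem comm_all (H A B V : Subgroup Γ) (hAH : A ≤ H) (hBH : B ≤ H)
    (hcA : Com A) (hcB : Com B)
    (hn : ∀ h ∈ H, ∀ v ∈ V, h⁻¹ * v * h ∈ V)
    (hab : ∀ a ∈ A, ∀ b ∈ B, Cm a b ∈ V)
    (hprod : ∀ h ∈ H, ∃ a ∈ A, ∃ b ∈ B, ∃ c ∈ A, ∃ d ∈ B, h = (a * b) * (c * d)) :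
    ∀ g ∈ H, ∀ h ∈ H, Cm g h ∈ V := by
  have symm : ∀ g h : Γ, Cm g h ∈ V → Cm h g ∈ V := by
    intro g h hgh
    have e : Cm h g = (Cm g h)⁻¹ := by
      unfold Cm
      group
    rw [e]
    exact V.inv_mem hgh
  have mul : ∀ g1 g2 h : Γ, g2 ∈ H → Cm g1 h ∈ V → Cm g2 h ∈ V → Cm (g1 * g2) h ∈ V := by
    intro g1 g2 h h2 h3 h4
    have e : Cm (g1 * g2) h = (g2⁻¹ * Cm g1 h * g2) * Cm g2 h := by
      unfold Cm
      group
    rw [e]
    exact V.mul_mem (hn g2 h2 _ h3) h4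
  have one : ∀ g h : Γ, g * h = h * g → Cm g h ∈ V := by
    intro g h e
    have : Cm g h = 1 := by
      unfold Cm
      rw [mul_assoc, e]
      group
    rw [this]
    exact V.one_mem
  have ext1 : ∀ h : Γ, (∀ a ∈ A, Cm a h ∈ V) → (∀ b ∈ B, Cm b h ∈ V) → ∀ g ∈ H, Cm g h ∈ V := by
    intro h h1 h2 g hg
    obtain ⟨a, ha, b, hb, c, hc, d, hd, rfl⟩ := hprod g hg
    exact mul _ _ _ (H.mul_mem (hAH hc) (hBH hd))
      (mul _ _ _ (hBH hb) (h1 a ha) (h2 b hb)) (mul _ _ _ (hBH hd) (h1 c hc) (h2 d hd))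
  have sA : ∀ x ∈ A, ∀ g ∈ H, Cm g x ∈ V := fun x hx =>
    ext1 x (fun a ha => one _ _ (hcA a ha x hx)) (fun b hb => symm _ _ (hab x hx b hb))
  have sB : ∀ x ∈ B, ∀ g ∈ H, Cm g x ∈ V := fun x hx =>
    ext1 x (fun a ha => hab a ha x hx) (fun b hb => one _ _ (hcB b hb x hx))
  intro g hg h hh
  exact ext1 h (fun a ha => symm _ _ (sA a ha h hh)) (fun b hb => symm _ _ (sB b hb h hh)) g hg

end

theorem pf_ITV (hBGA : T_BGA) (hIRG : T_IRG) (hIRP : T_IRP) : T_ITV := by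
  intro M U Γ _ _ _ H A B hH hA hB hAH hBH hcA hcB hAB
  have iA := hIRG U A hA
  have iB := hIRG U B hB
  have iH := hIRG U H hH
  have iAB := hIRP U (A : Set Γ) (B : Set Γ) iA.1 iB.1
  -- the good groups
  obtain ⟨J, hJ⟩ := l_GRD U (I := {L : Subgroup Γ // U.D (L : Set Γ) ∧
    Big U ((A : Set Γ) ×ˢ (B : Set Γ)) {p : Γ × Γ | Cm p.1 p.2 ∈ L}}) (fun L => L.1)
    (fun L => L.2.1)
  have hfin : ∀ J' : Finset {L : Subgroup Γ // U.D (L : Set Γ) ∧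
      Big U ((A : Set Γ) ×ˢ (B : Set Γ)) {p : Γ × Γ | Cm p.1 p.2 ∈ L}},
      U.D ((⨅ j ∈ J', j.1 : Subgroup Γ) : Set Γ) ∧
      Big U ((A : Set Γ) ×ˢ (B : Set Γ))
        {p : Γ × Γ | Cm p.1 p.2 ∈ (⨅ j ∈ J', j.1 : Subgroup Γ)} := by
    classical
    intro J'
    induction J' using Finset.induction_on with
    | empty =>
      constructor
      · have : ((⨅ j ∈ (∅ : Finset {L : Subgroup Γ // U.D (L : Set Γ) ∧
            Big U ((A : Set Γ) ×ˢ (B : Set Γ)) {p : Γ × Γ | Cm p.1 p.2 ∈ L}}), j.1 :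
            Subgroup Γ) : Set Γ) = univ := by simp
        rw [this]
        exact Ful.full
      · refine big_univ (D_prod hA.1 hB.1) ⟨(1, 1), A.one_mem, B.one_mem⟩ ?_
        intro p _
        simp
    | insert j J' hj ih =>
      have e : (⨅ i ∈ insert j J', i.1 : Subgroup Γ) = j.1 ⊓ ⨅ i ∈ J', i.1 :=
        Finset.iInf_insert j J' _
      rw [e]
      constructor
      · rw [Subgroup.coe_inf]
        exact D_inter j.2.1 ih.1
      · refine big_mono ((hBGA U _ iAB.1).1 _ _ j.2.2 ih.2) ?_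
        rintro p ⟨⟨h1, h2⟩, -⟩
        exact ⟨h1, h2⟩
  obtain ⟨hVD, hVG⟩ := hfin J
  set V : Subgroup Γ := ⨅ j ∈ J, j.1 with hVdef
  have hmin : ∀ L : Subgroup Γ, U.D (L : Set Γ) →
      Big U ((A : Set Γ) ×ˢ (B : Set Γ)) {p : Γ × Γ | Cm p.1 p.2 ∈ L} → V ≤ L :=
    fun L h1 h2 => hJ ⟨L, h1, h2⟩
  have hVH : V ≤ H := by
    refine hmin H hH.1 (big_univ (D_prod hA.1 hB.1) ⟨(1, 1), A.one_mem, B.one_mem⟩ ?_)
    rintro ⟨a, b⟩ ⟨ha, hb⟩
    exact H.mul_mem (H.mul_mem (H.mul_mem (H.inv_mem (hAH ha)) (H.inv_mem (hBH hb))) (hAH ha))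
      (hBH hb)
  have hn1 := norm_aux hBGA hIRG hIRP A B V hA hB hVD hVG hmin
  have cinv : ∀ (L : Subgroup Γ) (a b : Γ), Cm a b ∈ L → Cm b a ∈ L := by
    intro L a b h
    have e : Cm b a = (Cm a b)⁻¹ := by
      unfold Cm
      group
    rw [e]
    exact L.inv_mem h
  have hn2 := norm_aux hBGA hIRG hIRP B A V hB hA hVD
    (big_mono (big_swap hA.1 hB.1 hVG) (by
      rintro ⟨b, a⟩ ⟨h, -⟩
      have h' : Cm a b ∈ V := h
      exact cinv V a b h'))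
    (fun L h1 h2 => hmin L h1 (big_mono (big_swap hB.1 hA.1 h2) (by
      rintro ⟨a, b⟩ ⟨h, -⟩
      have h' : Cm b a ∈ L := h
      exact cinv L b a h')))
  have hab := comm_aux hBGA hIRG A B V hA hB hn1.1 hn2.1 hn1.2
  have hprod : ∀ h ∈ H, ∃ a ∈ A, ∃ b ∈ B, ∃ c ∈ A, ∃ d ∈ B, h = (a * b) * (c * d) := by
    intro h hh
    obtain ⟨x, ⟨a, ha, b, hb, rfl⟩, y, ⟨c, hc, d, hd, rfl⟩, rfl⟩ :=
      (iH.2 _ hAB).2.2.2 _ hAB h hh
    exact ⟨a, ha, b, hb, c, hc, d, hd, rfl⟩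
  have hn : ∀ h ∈ H, ∀ v ∈ V, h⁻¹ * v * h ∈ V := by
    intro h hh v hv
    obtain ⟨a, ha, b, hb, c, hc, d, hd, rfl⟩ := hprod h hh
    have e : (a * b * (c * d))⁻¹ * v * (a * b * (c * d)) =
        d⁻¹ * (c⁻¹ * (b⁻¹ * (a⁻¹ * v * a) * b) * c) * d := by group
    rw [e]
    exact hn2.1 d hd _ (hn1.1 c hc _ (hn2.1 b hb _ (hn1.1 a ha v hv)))
  have hcomm := comm_all H A B V hAH hBH hcA hcB hn hab hprod
  refine ⟨V, hVH, hVD, ?_, ?_, hVG, hmin⟩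
  · intro h hh v hv
    have := hn h⁻¹ (H.inv_mem hh) v hv
    rwa [inv_inv] at this
  · intro g hg h hh
    have := hcomm g⁻¹ (H.inv_mem hg) h⁻¹ (H.inv_mem hh)
    unfold Cm at this
    rwa [inv_inv, inv_inv] at this

end Pool.Agent.H24.S
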