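import Pool.Agent.H24.S.ITV

/-!
# Row ITW (board sgt_modules): the group generated by generic commutators is commutative
-/

set_option autoImplicit false

open Set Pool.Agent.H77.BC Pool.Agent.H78.S
open scoped Pointwise

namespace Pool.Agent.H24.S

/-- Ito: pure group theory -/
theorem ito {Γ : Type} [Group Γ] {A B : Subgroup Γ} (hA : Com A) (hB : Com B)
    {a a1 a2 a3 b b1 b2 b3 : Γ} (ha : a ∈ A) (ha1 : a1 ∈ A) (ha2 : a2 ∈ A) (ha3 : a3 ∈ A)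
    (hb : b ∈ B) (hb1 : b1 ∈ B) (hb2 : b2 ∈ B) (hb3 : b3 ∈ B)
    (h1 : b1⁻¹ * a * b1 = b3 * a3) (h2 : a1⁻¹ * b * a1 = a2 * b2) :
    (a1 * b1 * a1⁻¹ * b1⁻¹) * Cm a b = Cm a b * (a1 * b1 * a1⁻¹ * b1⁻¹) := by
  have cj : ∀ x y : Γ, x * y = y * x → y⁻¹ * x * y = x := by
    intro x y h
    rw [mul_assoc, h]
    group
  have cA : ∀ x ∈ A, ∀ y ∈ A, y⁻¹ * x * y = x := fun x hx y hy => cj x y (hA x hx y hy)
  have cB : ∀ x ∈ B, ∀ y ∈ B, y⁻¹ * x * y = x := fun x hx y hy => cj x y (hB x hx y hy)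
  have e1 : b1⁻¹ * Cm a b * b1 = a3⁻¹ * b⁻¹ * a3 * b := by
    have s1 : b1⁻¹ * Cm a b * b1 =
        (b1⁻¹ * a * b1)⁻¹ * (b1⁻¹ * b * b1)⁻¹ * (b1⁻¹ * a * b1) * (b1⁻¹ * b * b1) := by
      unfold Cm
      group
    rw [s1, h1, cB b hb b1 hb1]
    have s2 : (b3 * a3)⁻¹ * b⁻¹ * (b3 * a3) * b = a3⁻¹ * (b3⁻¹ * b⁻¹ * b3) * a3 * b := by group
    rw [s2, cB b⁻¹ (B.inv_mem hb) b3 hb3]
  have e2 : a1⁻¹ * (a3⁻¹ * b⁻¹ * a3 * b) * a1 = a3⁻¹ * b2⁻¹ * a3 * b2 := by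
    have s1 : a1⁻¹ * (a3⁻¹ * b⁻¹ * a3 * b) * a1 =
        (a1⁻¹ * a3 * a1)⁻¹ * (a1⁻¹ * b * a1)⁻¹ * (a1⁻¹ * a3 * a1) * (a1⁻¹ * b * a1) := by group
    rw [s1, h2, cA a3 ha3 a1 ha1]
    have s2 : a3⁻¹ * (a2 * b2)⁻¹ * a3 * (a2 * b2) = a3⁻¹ * b2⁻¹ * (a2⁻¹ * a3 * a2) * b2 := by
      group
    rw [s2, cA a3 ha3 a2 ha2]
  have e3 : a1⁻¹ * Cm a b * a1 = a⁻¹ * b2⁻¹ * a * b2 := by
    have s1 : a1⁻¹ * Cm a b * a1 =
        (a1⁻¹ * a * a1)⁻¹ * (a1⁻¹ * b * a1)⁻¹ * (a1⁻¹ * a * a1) * (a1⁻¹ * b * a1) := by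
      unfold Cm
      group
    rw [s1, h2, cA a ha a1 ha1]
    have s2 : a⁻¹ * (a2 * b2)⁻¹ * a * (a2 * b2) = a⁻¹ * b2⁻¹ * (a2⁻¹ * a * a2) * b2 := by
      group
    rw [s2, cA a ha a2 ha2]
  have e4 : b1⁻¹ * (a⁻¹ * b2⁻¹ * a * b2) * b1 = a3⁻¹ * b2⁻¹ * a3 * b2 := by
    have s1 : b1⁻¹ * (a⁻¹ * b2⁻¹ * a * b2) * b1 =
        (b1⁻¹ * a * b1)⁻¹ * (b1⁻¹ * b2 * b1)⁻¹ * (b1⁻¹ * a * b1) * (b1⁻¹ * b2 * b1) := by group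
    rw [s1, h1, cB b2 hb2 b1 hb1]
    have s2 : (b3 * a3)⁻¹ * b2⁻¹ * (b3 * a3) * b2 = a3⁻¹ * (b3⁻¹ * b2⁻¹ * b3) * a3 * b2 := by
      group
    rw [s2, cB b2⁻¹ (B.inv_mem hb2) b3 hb3]
  have e5 : a1⁻¹ * (b1⁻¹ * Cm a b * b1) * a1 = b1⁻¹ * (a1⁻¹ * Cm a b * a1) * b1 := by
    rw [e1, e2, e3, e4]
  have e6 : (a1 * b1 * a1⁻¹ * b1⁻¹) * Cm a b =
      (a1 * b1) * (a1⁻¹ * (b1⁻¹ * Cm a b * b1) * a1) * (b1 * a1)⁻¹ := by group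
  rw [e6, e5]
  group

variable {M : Type} {U : RU M}

theorem big_prod {Γ : Type} [Group Γ] [Cod M Γ] [DG U Γ] {A B X Y : Set Γ} (hA : U.D A)
    (hB : U.D B) (hX : Big U A X) (hY : Big U B Y) : Big U (A ×ˢ B) (X ×ˢ Y) := by
  obtain ⟨P, p1, p2, p3, p4, p5⟩ := hX
  obtain ⟨Q, q1, q2, q3, q4, q5⟩ := hY
  refine ⟨P ×ˢ Q, D_prod p1 q1, p2.prod q2, prod_mono p3 q3, prod_mono p4 q4, ?_⟩
  rw [(l_RKB U).prod hA hB (p2.mono p3) (q2.mono q3), (l_RKB U).prod p1 q1 p2 q2]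
  exact Nat.add_le_add p5 q5

theorem D_AB {Γ : Type} [Group Γ] [Cod M Γ] [DG U Γ] {A B : Set Γ} (hA : U.D A)
    (hB : U.D B) : U.D {h | ∃ a ∈ A, ∃ b ∈ B, h = a * b} := by
  have h := DFn_image (f := fun p : Γ × Γ => p.1 * p.2) DG.mul (D_prod hA hB)
  refine (congrArg U.D ?_).mp h
  ext x
  constructor
  · rintro ⟨⟨a, b⟩, ⟨ha, hb⟩, rfl⟩
    exact ⟨a, ha, b, hb, rfl⟩
  · rintro ⟨a, ha, b, hb, rfl⟩
    exact ⟨(a, b), ⟨ha, hb⟩, rfl⟩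

theorem D_centralizer {Γ : Type} [Group Γ] [Cod M Γ] [DG U Γ] {V : Set Γ} (hV : U.D V) :
    U.D ((Subgroup.centralizer V : Subgroup Γ) : Set Γ) := by
  have h : U.D {g : Γ | ∀ v : Γ, v ∈ V → v * g = g * v} := by
    refine D_forall (p := fun g v : Γ => v ∈ V → v * g = g * v) ?_
    refine D_imp (DFn_preim DFn_snd hV) ?_
    exact D_eqf (DFn_gmul DFn_snd DFn_fst) (DFn_gmul DFn_fst DFn_snd)
  refine (congrArg U.D ?_).mp h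
  ext g
  exact Iff.rfl

theorem pf_ITW (hBGA : T_BGA) (hIRG : T_IRG) (hIRP : T_IRP) : T_ITW := by
  intro M U Γ _ _ _ H A B V hH hA hB hAH hBH hcA hcB hZ hAB hBA hVD hVG hmin
  have iA := hIRG U A hA
  have iB := hIRG U B hB
  have iAB := hIRP U (A : Set Γ) (B : Set Γ) iA.1 iB.1
  have iBA := hIRP U (B : Set Γ) (A : Set Γ) iB.1 iA.1
  have dAB : U.D {h : Γ | ∃ a ∈ A, ∃ b ∈ B, h = a * b} := D_AB hA.1 hB.1
  have dBA : U.D {h : Γ | ∃ b ∈ B, ∃ a ∈ A, h = b * a} := D_AB hB.1 hA.1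
  -- a * b1 in B A for generic b1 and generic a
  have g1 : Big U (B : Set Γ) {b1 | Big U (A : Set Γ)
      {a | a * b1 ∈ {h : Γ | ∃ b ∈ B, ∃ a ∈ A, h = b * a}}} := by
    have h := big_swap hA.1 hB.1 (hZ _ hBA).1
    have hd : U.D {p : Γ × Γ | p.2 * p.1 ∈ {h : Γ | ∃ b ∈ B, ∃ a ∈ A, h = b * a}} :=
      DFn_preim (DFn_gmul DFn_snd DFn_fst) dBA
    exact (iBA.2 _ hd).1 h
  have g2 : Big U (A : Set Γ) {a1 | Big U (B : Set Γ)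
      {b | b * a1 ∈ {h : Γ | ∃ a ∈ A, ∃ b ∈ B, h = a * b}}} := by
    have h := big_swap hB.1 hA.1 (hZ _ hAB).2
    have hd : U.D {p : Γ × Γ | p.2 * p.1 ∈ {h : Γ | ∃ a ∈ A, ∃ b ∈ B, h = a * b}} :=
      DFn_preim (DFn_gmul DFn_snd DFn_fst) dAB
    exact (iAB.2 _ hd).1 h
  have key : ∀ a1 ∈ A, ∀ b1 ∈ B,
      Big U (A : Set Γ) {a | a * b1 ∈ {h : Γ | ∃ b ∈ B, ∃ a ∈ A, h = b * a}} →
      Big U (B : Set Γ) {b | b * a1 ∈ {h : Γ | ∃ a ∈ A, ∃ b ∈ B, h = a * b}} →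
      ∀ v ∈ V, (a1 * b1 * a1⁻¹ * b1⁻¹) * v = v * (a1 * b1 * a1⁻¹ * b1⁻¹) := by
    intro a1 ha1 b1 hb1 h1 h2 v hv
    have hle : V ≤ Subgroup.centralizer {a1 * b1 * a1⁻¹ * b1⁻¹} := by
      refine hmin _ (D_centralizer (D_singleton _)) ?_
      refine big_mono (big_prod hA.1 hB.1 h1 h2) ?_
      rintro ⟨a, b⟩ ⟨⟨⟨b', hb', a', ha', e1⟩, ⟨a'', ha'', b'', hb'', e2⟩⟩, ⟨ha, hb⟩⟩
      change Cm a b ∈ Subgroup.centralizer {a1 * b1 * a1⁻¹ * b1⁻¹}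
      rw [Subgroup.mem_centralizer_iff]
      intro x hx
      rw [mem_singleton_iff] at hx
      subst hx
      have e1' : a * b1 = b' * a' := e1
      have e2' : b * a1 = a'' * b'' := e2
      refine ito hcA hcB (a2 := a1⁻¹ * a'') (a3 := a') (b2 := b'') (b3 := b1⁻¹ * b')
        ha ha1 (A.mul_mem (A.inv_mem ha1) ha'') ha' hb hb1 hb''
        (B.mul_mem (B.inv_mem hb1) hb') ?_ ?_
      · rw [mul_assoc, e1', mul_assoc]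
      · rw [mul_assoc, e2', mul_assoc]
    have h := hle hv
    rw [Subgroup.mem_centralizer_iff] at h
    exact h _ rfl
  -- commutators centralise V
  have i1 := (iA.2 _ (big_inter_self g2)).2.2.1
  have i2 := (iB.2 _ (big_inter_self g1)).2.2.1
  have hle : V ≤ Subgroup.centralizer (V : Set Γ) := by
    refine hmin _ (D_centralizer hVD) ?_
    refine big_mono (big_prod hA.1 hB.1 i1 i2) ?_
    rintro ⟨a, b⟩ ⟨⟨⟨h1, ha1⟩, ⟨h2, hb1⟩⟩, -⟩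
    change Cm a b ∈ Subgroup.centralizer (V : Set Γ)
    rw [Subgroup.mem_centralizer_iff]
    intro v hv
    have h := key a⁻¹ ha1 b⁻¹ hb1 h2 h1 v hv
    rw [inv_inv, inv_inv] at h
    exact h.symm
  intro a ha b hb
  have h := hle ha
  rw [Subgroup.mem_centralizer_iff] at h
  exact (h b hb).symm

end Pool.Agent.H24.S
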